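import Pool.Agent.Helper5.FS.Stmts

set_option autoImplicit false

open Finset

namespace Pool.Agent.Helper5.FS

theorem mg3_no {n : ℕ} {P : Finset (Finset (Fin n))} {A B : Finset (Fin n)} (hP : Pt P)
    (hA : A ∈ P) (h : A ∪ B ∈ P) : A ∪ B = A := by
  by_contra hne
  have h1 := hP.2.1 _ h _ hA hne
  obtain ⟨x, hx⟩ := hP.1 A hA
  exact Finset.disjoint_left.1 h1 (Finset.mem_union_left _ hx) hx

theorem mg3_ins {n : ℕ} {P : Finset (Finset (Fin n))} {A B : Finset (Fin n)}
    (hA : A ∈ P) (hB : B ∈ P) (hAB : A ≠ B) :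
    insert A (insert B ((P.erase A).erase B)) = P := by
  rw [Finset.insert_erase (Finset.mem_erase.2 ⟨hAB.symm, hB⟩), Finset.insert_erase hA]

theorem mg3_er {n : ℕ} {P : Finset (Finset (Fin n))} {A B : Finset (Fin n)} (hP : Pt P)
    (hA : A ∈ P) : (mg P A B).erase (A ∪ B) = (P.erase A).erase B := by
  unfold mg
  refine Finset.erase_insert ?_
  intro h
  have h1 := Finset.mem_of_mem_erase h
  exact (Finset.mem_erase.1 h1).1 (mg3_no hP hA (Finset.mem_of_mem_erase h1))

/-- row MG3 -/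
theorem st_MG3 : ST_MG3 := by
  intro n P P' A B B' hP hP' hA hB hAB hA' hB' hAB' h
  have hU : A ∪ B = A ∪ B' := by
    have h1 : A ∪ B ∈ mg P' A B' := by
      rw [← h]
      exact Finset.mem_insert_self _ _
    rcases Finset.mem_insert.1 h1 with h2 | h2
    · exact h2
    · exfalso
      have h3 := Finset.mem_of_mem_erase h2
      exact (Finset.mem_erase.1 h3).1 (mg3_no hP' hA' (Finset.mem_of_mem_erase h3))
  have hBB : B = B' := by
    have h1 : (A ∪ B) \ A = B := Finset.union_sdiff_cancel_left (hP.2.1 A hA B hB hAB)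
    have h2 : (A ∪ B') \ A = B' := Finset.union_sdiff_cancel_left (hP'.2.1 A hA' B' hB' hAB')
    rw [← h1, hU, h2]
  subst hBB
  refine ⟨?_, rfl⟩
  rw [← mg3_ins hA hB hAB, ← mg3_ins hA' hB' hAB', ← mg3_er hP hA, ← mg3_er hP' hA', h]

end Pool.Agent.Helper5.FS
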